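import Pool.Agent.BER.StmtsE
import Pool.Agent.BEL.StmtsE

/-!
# Squad BEW (MP_be01ff_an): EVERY REAL power `α > 0`, thin shells.  Definitions.

THEOREM.  For `d ≥ 2`, `d ≠ 3`, `α > 0` real, every sufficiently thin spherical shell of `ℝ^d` has a
strong solution with the sharp rate.

PLAN.  Radial functions; the velocity of the first mode is `≈ R(t) cos(ω t + θ) b_0(x)`, `b_0` = the first
radial eigenfunction.  The linearized averaged damping of the mode `k ≥ 1` is larger than the relative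
decay rate of the first mode: `∫ |b_0|^α b_k² > (2/(α+2)) ∫ |b_0|^(α+2)`.  So the cone
`F2 ≤ η² R2` (`R2` = energy of the first mode, `F2` = of the other modes, and `S2 ≤ R2` for the time
derivatives) is invariant under time steps of a large length `T`, for small amplitudes.  On a step the
solution is compared with the free evolution; the only resonances are the diagonal ones, because the
frequencies of a thin shell are `n + c/(2n) + …`, and `|cos|^α` is replaced by a trigonometric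
polynomial of degree `J` (the shell is chosen after `J`).  Everything is done for Galerkin systems, with
constants independent of the dimension; `a = 1`; the nonlinearity is `gl 1 α 1`, equal to `|s|^α s` for
`|s| ≤ 1`.
-/

set_option autoImplicit false

namespace Pool.Agent.BEW

open Set Filter Topology MeasureTheory
open scoped InnerProductSpace ENNReal
open Pool.Agent.BE01 Pool.Agent.BEL Pool.Agent.BEG Pool.Agent.BEH Pool.Agent.BER

noncomputable section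

variable {X : Type} [MeasurableSpace X]

/-- A bounded orthonormal sequence in a finite measure space. -/
structure Ons (μ : Measure X) (b : ℕ → X → ℝ) (B m0 : ℝ) : Prop where
  fin : IsFiniteMeasure μ
  mass : μ.real univ ≤ m0
  meas : ∀ k, Measurable (b k)
  bdd : ∀ k x, |b k x| ≤ B
  ort : ∀ j k, ∫ x, b j x * b k x ∂μ = if j = k then 1 else 0

/-- Simple properties of the frequencies. -/
structure Frq (om : ℕ → ℝ) : Prop where
  lo : ∀ k : ℕ, ((k : ℝ) + 1) / 2 ≤ om k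
  o0 : om 0 ≤ 2

/-- The mean value of `|cos|^q`. -/
def mc (q : ℝ) : ℝ := (1 / (2 * Real.pi)) * ∫ θ in (0 : ℝ)..(2 * Real.pi), |Real.cos θ| ^ q

/-- `∑ v_k(t) b_k(x)`, `k ∈ S`. -/
def vel (b : ℕ → X → ℝ) (S : Finset ℕ) (v : ℕ → ℝ → ℝ) (t : ℝ) (x : X) : ℝ :=
  ∑ k ∈ S, v k t * b k x

/-- The time derivatives. -/
def dd (v : ℕ → ℝ → ℝ) : ℕ → ℝ → ℝ := fun k => deriv (v k)

/-- Solutions of the Galerkin system with `M` modes. -/
structure Gal (μ : Measure X) (b : ℕ → X → ℝ) (om : ℕ → ℝ) (M : ℕ) (al : ℝ)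
    (p v : ℕ → ℝ → ℝ) : Prop where
  dp : ∀ k < M, ∀ t, HasDerivAt (p k) (om k * v k t) t
  dv : ∀ k < M, ∀ t, HasDerivAt (v k)
    (-(om k * p k t) - ∫ x, gl 1 al 1 (vel b (Finset.range M) v t x) * b k x ∂μ) t

/-- The energy of the first mode. -/
def R2 (p v : ℕ → ℝ → ℝ) (t : ℝ) : ℝ := p 0 t ^ 2 + v 0 t ^ 2

/-- The energy of the other modes. -/
def F2 (M : ℕ) (p v : ℕ → ℝ → ℝ) (t : ℝ) : ℝ := ∑ k ∈ Finset.Ico 1 M, (p k t ^ 2 + v k t ^ 2)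

/-- The energy of the time derivatives of the other modes. -/
def S2 (om : ℕ → ℝ) (M : ℕ) (v : ℕ → ℝ → ℝ) (t : ℝ) : ℝ :=
  ∑ k ∈ Finset.Ico 1 M, ((om k * v k t) ^ 2 + dd v k t ^ 2)

/-- Free evolution of the velocity of the modes `k ∈ S`. -/
def fre (b : ℕ → X → ℝ) (om : ℕ → ℝ) (S : Finset ℕ) (P V : ℕ → ℝ) (s : ℝ) (x : X) : ℝ :=
  ∑ k ∈ S, (V k * Real.cos (om k * s) - P k * Real.sin (om k * s)) * b k x

/-- The energy of the modes `k ∈ S`. -/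
def nn (S : Finset ℕ) (P V : ℕ → ℝ) : ℝ := ∑ k ∈ S, (P k ^ 2 + V k ^ 2)

/-- The averages over time intervals of the length `T` are close to their limits: first mode
(`a0`), damping of the other modes, at least `γ` (`a1`), forcing of the other modes by the first
one (`a2`, `a3`). -/
structure Avg (μ : Measure X) (b : ℕ → X → ℝ) (om : ℕ → ℝ) (al γ ε T : ℝ) : Prop where
  a0 : ∀ θ : ℝ, |(∫ s in (0 : ℝ)..T, |Real.cos (om 0 * s + θ)| ^ (al + 2)) - mc (al + 2) * T| ≤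
    ε * T
  a1 : ∀ (S : Finset ℕ) (P V : ℕ → ℝ) (θ : ℝ), 0 ∉ S → (γ - ε) * T * nn S P V ≤
    ∫ s in (0 : ℝ)..T, |Real.cos (om 0 * s + θ)| ^ al *
      ∫ x, |b 0 x| ^ al * fre b om S P V s x ^ 2 ∂μ
  a2 : ∀ (S : Finset ℕ) (P V : ℕ → ℝ) (θ : ℝ), 0 ∉ S →
    |∫ s in (0 : ℝ)..T, |Real.cos (om 0 * s + θ)| ^ al * Real.cos (om 0 * s + θ) *
      ∫ x, |b 0 x| ^ al * b 0 x * fre b om S P V s x ∂μ| ≤ ε * T * Real.sqrt (nn S P V)
  a3 : ∀ (S : Finset ℕ) (P V : ℕ → ℝ) (θ : ℝ), 0 ∉ S →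
    |∫ s in (0 : ℝ)..T, |Real.cos (om 0 * s + θ)| ^ al * Real.sin (om 0 * s + θ) *
      ∫ x, |b 0 x| ^ al * b 0 x * fre b om S P V s x ∂μ| ≤ ε * T * Real.sqrt (nn S P V)

/-- The solution on the time interval `[t0, t0 + T]`, `R²` = the energy of the first mode at `t0`. -/
structure Wdw (μ : Measure X) (b : ℕ → X → ℝ) (om : ℕ → ℝ) (M : ℕ) (al : ℝ) (p v : ℕ → ℝ → ℝ)
    (B η T t0 R : ℝ) : Prop where
  gal : Gal μ b om M al p v
  one : 1 ≤ M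
  Rp : 0 < R
  Re : R2 p v t0 = R ^ 2
  w0 : ∀ s ∈ Icc 0 T, R ^ 2 / 4 ≤ R2 p v (t0 + s) ∧ R2 p v (t0 + s) ≤ 4 * R ^ 2
  w1 : ∀ s ∈ Icc 0 T, F2 M p v (t0 + s) ≤ (4 * η * R) ^ 2
  w2 : ∀ s ∈ Icc 0 T, S2 om M v (t0 + s) ≤ (4 * R) ^ 2
  w3 : ∀ s ∈ Icc 0 T, ∀ x, |vel b (Finset.range M) v (t0 + s) x| ≤ 14 * B * R
  w4 : 14 * B * R ≤ 1

/-- No resonance with the first frequency up to the harmonic `J`, except the diagonal ones. -/
structure Nrs (om : ℕ → ℝ) (J : ℕ) (δ : ℝ) : Prop where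
  pos : 0 < δ
  n1 : ∀ (k : ℕ) (j : ℤ), 1 ≤ k → |j| ≤ J → δ ≤ |om k - j * om 0|
  n2 : ∀ (k l : ℕ) (j : ℤ), 1 ≤ k → 1 ≤ l → |j| ≤ J → ¬ (j = 0 ∧ k = l) →
    δ * (1 + |(k : ℝ) - l - j|) ≤ |om k - om l - j * om 0|
  n3 : ∀ (k l : ℕ) (j : ℤ), 1 ≤ k → 1 ≤ l → |j| ≤ J →
    δ * (1 + |(k : ℝ) + l + 2 - j|) ≤ |om k + om l - j * om 0|

/-- Strong solutions in modes: `P = Λ u`, `V = u_t`, `L = P'`, `w = V'`. -/
structure Msl (ν : Measure X) (e : HilbertBasis ℕ ℝ (Lp ℝ 2 ν)) (om : ℕ → ℝ) (al : ℝ)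
    (P V L w : ℝ → Lp ℝ 2 ν) : Prop where
  dP : ∀ t, HasDerivAt P (L t) t
  dV : ∀ t, HasDerivAt V (w t) t
  cL : Continuous L
  cw : Continuous w
  mL : ∀ k t, ⟪e k, L t⟫_ℝ = om k * ⟪e k, V t⟫_ℝ
  mw : ∀ k t, 0 ≤ t → ⟪e k, w t⟫_ℝ =
    -(om k * ⟪e k, P t⟫_ℝ) - ∫ x, gf 1 al (V t x) * e k x ∂ν
  bd : ∀ t, 0 ≤ t → ∀ᵐ x ∂ν, |V t x| ≤ 1

/-! ## The shell `β < |x| < β + π` -/

/-- The measure `(r/β)^(d-1) dr` on `(β, β + π)`. -/
def nu (d : ℕ) (β : ℝ) : Measure ℝ :=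
  (volume.restrict (Ioo β (β + Real.pi))).withDensity fun r => ENNReal.ofReal ((r / β) ^ (d - 1))

/-- The sine functions `(r/β)^(-(d-1)/2) (2/π)^(1/2) sin ((k+1)(r-β))`. -/
def sg (d : ℕ) (β : ℝ) (k : ℕ) (r : ℝ) : ℝ :=
  (r / β) ^ (-(((d : ℝ) - 1) / 2)) * (Real.sqrt (2 / Real.pi) * Real.sin (((k : ℝ) + 1) * (r - β)))

/-- `J f = f ∘ ‖·‖`, an isometry of `L²(ν_β)` into `L²` of the shell, up to the factor `m^(1/2)`. -/
structure Rad (d : ℕ) (β m : ℝ)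
    (J : Lp ℝ 2 (nu d β) →L[ℝ] Lp ℝ 2 (mu (Sh d β (β + Real.pi)))) : Prop where
  pos : 0 < m
  ev : ∀ f, J f =ᵐ[mu (Sh d β (β + Real.pi))] fun x => f ‖x‖
  nrm : ∀ f, ‖J f‖ ^ 2 = m * ‖f‖ ^ 2

end

end Pool.Agent.BEW
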