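import Pool.Agent.BEW.StmtsD

/-!
# Squad BEW (MP_be01ff_an), part A: averages over long time intervals
-/

set_option autoImplicit false

namespace Pool.Agent.BEW

open Set Filter Topology MeasureTheory
open scoped InnerProductSpace ENNReal
open Pool.Agent.BE01 Pool.Agent.BEL Pool.Agent.BEG Pool.Agent.BEH Pool.Agent.BER

noncomputable section

/-- Continuous functions of period `2π`. -/
def Prd (f : ℝ → ℝ) : Prop := Continuous f ∧ ∀ θ, f (θ + 2 * Real.pi) = f θ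

/-- The mean value of a periodic function. -/
def mn (f : ℝ → ℝ) : ℝ := (1 / (2 * Real.pi)) * ∫ θ in (0 : ℝ)..(2 * Real.pi), f θ

/-- TPA: trigonometric approximation (no hypotheses).  `span_fourier_closure_eq_top` on
`AddCircle (2π)` (real part of the approximating sum), or Fejér, or Stone-Weierstrass. -/
def TpaStmt : Prop := ∀ (f : ℝ → ℝ) (ε : ℝ), Prd f → 0 < ε → ∃ (J : ℕ) (a c : ℕ → ℝ), ∀ θ,
  |f θ - ∑ j ∈ Finset.range (J + 1), (a j * Real.cos (j * θ) + c j * Real.sin (j * θ))| ≤ ε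

/-- APE: the average of a periodic function (no hypotheses).  Substitution `u = ω s + θ`:
`(1/ω) ∫_θ^(θ+ωT) f`; `N = ⌊ωT/(2π)⌋` full periods give `2πN mn f` (`Function.Periodic`), the rest has a
length `< 2π`; `|mn f| ≤ K`: the error is at most `(1/ω) 4πK ≤ 8πK`. -/
def ApeStmt : Prop := ∀ (f : ℝ → ℝ) (K ω θ T : ℝ), Prd f → (∀ θ, |f θ| ≤ K) → 1 / 2 ≤ ω → 0 ≤ T →
  |(∫ s in (0 : ℝ)..T, f (ω * s + θ)) - mn f * T| ≤ 8 * Real.pi * K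

/-- AFB: the forcing terms average out (uses TPA, BSL).  `f = q + r`, `|r| ≤ ε'`,
`q(θ) = ∑_(j ≤ J) (a_j cos jθ + c_j sin jθ)`.  `|∫ g fre| ≤ (∫ g²)^(1/2) (∫ fre²)^(1/2) ≤ G m0^(1/2) nn^(1/2)`
(BSL: `∫ fre² = ∑ h_k²`, `h_k = V_k cos - P_k sin`, `h_k² ≤ P_k² + V_k²`), so the part `r` is at most
`ε' G m0^(1/2) T nn^(1/2)`.  `∫ g fre = ∑_k g_k h_k`, `g_k = ∫ g b_k`, `∑_(k∈S) g_k² ≤ G² m0` (BSL);
`cos(j(om_0 s + θ)) cos(om_k s)` etc. are half sums of `cos` or `sin` of `(om_k ± j om_0) s + const`, whose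
integrals over `[0, T]` are at most `2/δ` (`n1` with `± j`, `k ≥ 1` as `0 ∉ S`); so the part `q` is at
most `Q (4/δ) ∑ |g_k| (|P_k| + |V_k|) ≤ Q (8/δ) G m0^(1/2) nn^(1/2)`, `Q = ∑ (|a_j| + |c_j|)`.  Choose
`ε' G m0^(1/2) ≤ ε/2`, then `T0` with `Q (8/δ) G m0^(1/2) ≤ ε T0/2`. -/
def AfbStmt : Prop := ∀ (f : ℝ → ℝ) (G m0 ε : ℝ), Prd f → 0 ≤ G → 0 < m0 → 0 < ε →
  ∃ J : ℕ, ∀ δ : ℝ, 0 < δ → ∃ T0 : ℝ, 0 < T0 ∧ ∀ (X : Type) [MeasurableSpace X] (μ : Measure X)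
    (b : ℕ → X → ℝ) (om : ℕ → ℝ) (B : ℝ), Ons μ b B m0 → Nrs om J δ → ∀ T, T0 ≤ T →
    ∀ g : X → ℝ, Measurable g → (∀ x, |g x| ≤ G) → ∀ (S : Finset ℕ) (P V : ℕ → ℝ) (θ : ℝ), 0 ∉ S →
    |∫ s in (0 : ℝ)..T, f (om 0 * s + θ) * ∫ x, g x * fre b om S P V s x ∂μ| ≤
      ε * T * Real.sqrt (nn S P V)

/-- AQF: the quadratic form (uses TPA, BSL).  `f = q + r` as in AFB; `0 ≤ ∫ |w| fre² ≤ G nn` (BSL), so
the part `r` is at most `ε' G T nn`.  `W_kl = ∫ w b_k b_l`; `∫ w fre² = ∑_(k,l∈S) W_kl h_k h_l`,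
`h_k = A_k cos(om_k s + φ_k)`, `A_k² = P_k² + V_k²`, so
`h_k h_l = (A_k A_l/2) (cos((om_k - om_l) s + φ_k - φ_l) + cos((om_k + om_l) s + φ_k + φ_l))`.  After
multiplication by `cos(j(om_0 s + θ))` or `sin`: half sums of `cos`, `sin` of
`(om_k - om_l ± j om_0) s + const`, `(om_k + om_l ± j om_0) s + const`.  The only case without
oscillation is `j = 0`, `k = l`, first kind: it gives `T a_0 ∑ W_kk A_k²/2`, and `|a_0 - mn f| ≤ ε'`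
(integrate `r` over a period), `|W_kk| ≤ G`.  All the others: `n2`, `n3` (with `± j`): the integral is at
most `(A_k A_l/4) (2/δ) K`, `K = 1/(1 + |k - l ∓ j|)` or `1/(1 + |k + l + 2 ∓ j|)`.
`∑_(k,l) |W_kl| K_kl A_k A_l ≤ (1/2) ∑_(k,l) |W_kl| K_kl (A_k² + A_l²)`, and for fixed `k`:
`∑_(l∈S) |W_kl| K_kl ≤ (∑_l W_kl²)^(1/2) (∑_l K_kl²)^(1/2) ≤ G · 2` (BSL for `u = w b_k`:
`∑_l W_kl² ≤ ∫ w² b_k² ≤ G²`; `∑_(i∈ℤ) (1+|i|)^(-2) ≤ 4`, `l ↦ k - l ∓ j` is injective), and the same for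
fixed `l`.  So the error is at most `C (Q G/δ) nn` with an absolute constant `C`. -/
def AqfStmt : Prop := ∀ (f : ℝ → ℝ) (G ε : ℝ), Prd f → 0 ≤ G → 0 < ε →
  ∃ J : ℕ, ∀ δ : ℝ, 0 < δ → ∃ T0 : ℝ, 0 < T0 ∧ ∀ (X : Type) [MeasurableSpace X] (μ : Measure X)
    (b : ℕ → X → ℝ) (om : ℕ → ℝ) (B m0 : ℝ), Ons μ b B m0 → Nrs om J δ → ∀ T, T0 ≤ T →
    ∀ w : X → ℝ, Measurable w → (∀ x, |w x| ≤ G) → ∀ (S : Finset ℕ) (P V : ℕ → ℝ) (θ : ℝ), 0 ∉ S →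
    |(∫ s in (0 : ℝ)..T, f (om 0 * s + θ) * ∫ x, w x * fre b om S P V s x ^ 2 ∂μ) -
      T * mn f * ∑ k ∈ S, (P k ^ 2 + V k ^ 2) / 2 * ∫ x, w x * b k x ^ 2 ∂μ| ≤ ε * T * nn S P V

/-- MCR: mean values of powers of `|cos|` (no hypotheses).  The function `|cos θ|^al cos θ sin θ` is
periodic, `C^1`, with the derivative `- (al+1) |cos|^al sin² + |cos|^al cos² =
- (al+1) |cos|^al + (al+2) |cos|^(al+2)` (`s ↦ |s|^al s` has the derivative `(al+1) |s|^al`). -/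
def McrStmt : Prop := ∀ al : ℝ, 0 < al → 0 < mc al ∧ (al + 2) * mc (al + 2) = (al + 1) * mc al

/-- AVG: the averages (uses APE, AFB, AQF).  `a0`: APE with `f = |cos|^(al+2)`, `K = 1`, `T ≥ 8π/ε`
(`om 0 ≥ 1/2`).  `a1`: AQF with `f = |cos|^al`, `w = |b_0|^al`, `G = B^al`: `mn f = mc al`,
`T mc al ∑ (P²+V²)/2 W_kk ≥ T γ nn`.  `a2`, `a3`: AFB with `f = |cos|^al cos`, `|cos|^al sin`,
`g = |b_0|^al b_0`, `G = B^(al+1)`.  `Nrs om J δ` implies `Nrs om J' δ` for `J' ≤ J`: take the maximum of the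
three `J` and of the `T0`. -/
def AvgStmt : Prop := ∀ al B m0 ε : ℝ, 0 < al → 0 < B → 0 < m0 → 0 < ε → ∃ J : ℕ,
  ∀ δ : ℝ, 0 < δ → ∃ T : ℝ, 1 ≤ T ∧ ∀ (X : Type) [MeasurableSpace X] (μ : Measure X)
    (b : ℕ → X → ℝ) (om : ℕ → ℝ) (γ : ℝ), Ons μ b B m0 → Frq om → Nrs om J δ →
    (∀ k, 1 ≤ k → 2 * γ ≤ mc al * ∫ x, |b 0 x| ^ al * b k x ^ 2 ∂μ) → Avg μ b om al γ ε T

end

end Pool.Agent.BEW
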