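import Pool.Agent.BEW.Defs

/-!
# Squad BEW (MP_be01ff_an), part D: the dynamics of the Galerkin system

Notation of the proofs: `m = min al 1`, `c = v_0(t) b_0(x)`, `h = vel b (Ico 1 M) v t x`, so
`vel b (range M) v t x = c + h` (`M ≥ 1`); `G_k = ∫ gl(vel) b_k`.  `gl 1 al 1 s = gf 1 al s =
|s|^al s` and `ql 1 al 1 s = (al + 1) |s|^al` for `|s| ≤ 1`; on a window `|vel| ≤ 14 B R ≤ 1`.
All functions of `x` are bounded and measurable, `μ` is finite: everything is integrable.  All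
functions of `t` are continuous (DER), so the time integrals exist.
-/

set_option autoImplicit false

namespace Pool.Agent.BEW

open Set Filter Topology MeasureTheory
open scoped InnerProductSpace ENNReal
open Pool.Agent.BE01 Pool.Agent.BEL Pool.Agent.BEG Pool.Agent.BEH Pool.Agent.BER

noncomputable section

/-- TAY: elementary inequalities (no hypotheses).  The first one: `al ≤ 1`: `||x|^al - |y|^al| ≤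
|x - y|^al` (`Real.rpow_add_le_add_rpow` and monotonicity); `al > 1`: mean value inequality,
`| |x|^al - |y|^al | ≤ al (2D)^(al-1) | |x| - |y| |`.  The second one: `gf' (s) = (al+1) |s|^al`, so the
left-hand side is `|∫_0^1 (al+1) (|c + τ h|^al - |c|^al) h dτ|`, or mean value inequality for
`h ↦ gf (c + h) - (al+1) |c|^al h` on the segment with the bound of the first part for `τ h`.  The third
one and the fourth one: mean value inequality. -/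
def TayStmt : Prop := ∀ al : ℝ, 0 < al → ∃ C : ℝ, 0 < C ∧ ∀ c h D : ℝ, 0 < D → |c| ≤ D → |h| ≤ D →
  |(|c + h| ^ al) - |c| ^ al| ≤ C * D ^ (al - min al 1) * |h| ^ (min al 1) ∧
  |gf 1 al (c + h) - gf 1 al c - (al + 1) * |c| ^ al * h| ≤
    C * D ^ (al - min al 1) * |h| ^ (min al 1) * |h| ∧
  |gf 1 al (c + h) - gf 1 al c| ≤ C * D ^ al * |h| ∧
  |(|c + h| ^ (al + 2)) - |c| ^ (al + 2)| ≤ C * D ^ (al + 1) * |h|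

/-- LIF: a bound in the maximum norm (no hypotheses).  `∑_(1 ≤ k < N) |c_k| ≤ √N (∑ c_k²)^(1/2)`;
`∑_(k ≥ N, k < M) |c_k| ≤ (∑_(k ≥ N) om_k^(-2))^(1/2) (∑ (om_k c_k)²)^(1/2)` and
`om_k^(-2) ≤ 4/(k+1)² ≤ 4 (1/k - 1/(k+1))`, so the first sum is at most `4/N`. -/
def LifStmt : Prop := ∀ (X : Type) (b : ℕ → X → ℝ) (om : ℕ → ℝ) (B : ℝ) (M N : ℕ) (c : ℕ → ℝ)
  (f s : ℝ) (x : X), (∀ k x, |b k x| ≤ B) → (∀ k : ℕ, ((k : ℝ) + 1) / 2 ≤ om k) → 1 ≤ N → 0 ≤ f →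
  0 ≤ s → ∑ k ∈ Finset.Ico 1 M, c k ^ 2 ≤ f ^ 2 → ∑ k ∈ Finset.Ico 1 M, (om k * c k) ^ 2 ≤ s ^ 2 →
  |∑ k ∈ Finset.Ico 1 M, c k * b k x| ≤ B * (Real.sqrt N * f + 2 / Real.sqrt N * s)

/-- BSL: Bessel and Parseval for finite sums (no hypotheses).  `0 ≤ ∫ (u - ∑ (∫ u b_k) b_k)²`. -/
def BslStmt : Prop := ∀ (X : Type) [MeasurableSpace X] (μ : Measure X) (b : ℕ → X → ℝ)
  (B m0 : ℝ), Ons μ b B m0 →
  (∀ (S : Finset ℕ) (u : X → ℝ), Measurable u → (∃ C : ℝ, ∀ x, |u x| ≤ C) →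
    ∑ k ∈ S, (∫ x, u x * b k x ∂μ) ^ 2 ≤ ∫ x, u x ^ 2 ∂μ) ∧
  ∀ (S : Finset ℕ) (c : ℕ → ℝ), ∫ x, (∑ k ∈ S, c k * b k x) ^ 2 ∂μ = ∑ k ∈ S, c k ^ 2

/-- DER: derivatives (no hypotheses).  (1), (2): `(p_k²)' + (v_k²)' = - 2 v_k G_k`.  (3): for `k < M`,
`deriv (v k) = - om_k p_k - G_k` and `G_k' = ∫ ql(vel) vel_t b_k` (differentiation under the integral:
`gl' = ql` is continuous and bounded by `al + 1`; `vel` is `C^1` in `t` with bounded coefficients;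
`hasDerivAt_integral_of_dominated_loc_of_deriv_le`; continuity of `deriv (v k)` first, by
dominated convergence for `G_k`).  (4): `((om_k v_k)²)' + ((v_k')²)' = 2 om_k² v_k v_k' +
2 v_k' (- om_k² v_k - H_k) = - 2 v_k' H_k`, `H_k = ∫ ql(vel) vel_t b_k`. -/
def DerStmt : Prop := ∀ (X : Type) [MeasurableSpace X] (μ : Measure X) (b : ℕ → X → ℝ)
  (om : ℕ → ℝ) (M : ℕ) (al B m0 : ℝ) (p v : ℕ → ℝ → ℝ), 0 < al → Ons μ b B m0 → 1 ≤ M →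
  Gal μ b om M al p v →
  (∀ t, HasDerivAt (R2 p v)
    (-(2 * (v 0 t * ∫ x, gl 1 al 1 (vel b (Finset.range M) v t x) * b 0 x ∂μ))) t) ∧
  (∀ t, HasDerivAt (F2 M p v) (-(2 * ∫ x, gl 1 al 1 (vel b (Finset.range M) v t x) *
    vel b (Finset.Ico 1 M) v t x ∂μ)) t) ∧
  (∀ k < M, ∀ t, HasDerivAt (dd v k) (-(om k ^ 2 * v k t) -
    ∫ x, ql 1 al 1 (vel b (Finset.range M) v t x) * vel b (Finset.range M) (dd v) t x *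
      b k x ∂μ) t) ∧
  ∀ t, HasDerivAt (S2 om M v) (-(2 * ∫ x, ql 1 al 1 (vel b (Finset.range M) v t x) *
    vel b (Finset.range M) (dd v) t x * vel b (Finset.Ico 1 M) (dd v) t x ∂μ)) t

/-- BOO: the window (uses LIF, BSL, DER).  Let `A` = the set of the `s ∈ [0, T]` such that for all
`s' ∈ [0, s]`: `R²/4 ≤ R2 ≤ 4 R²`, `F2 ≤ (4 η R)²`, `S2 ≤ (4 R)²` at `t0 + s'`.  For `s ∈ A`:
`|h| ≤ B (4 η R + 2 · 4 R) ≤ 12 B R` (LIF, `N = 1`, `η ≤ 1`, `f = 4ηR`, `s = 4R`), `|c| ≤ 2 B R`, so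
`|vel| ≤ 14 B R ≤ 1`
and `|gl(vel)| ≤ (14 B R)^(al+1)`, `ql(vel) ≤ (al+1)(14 B R)^al`; `|v_0'| ≤ om_0 |p_0| + |G_0| ≤
4 R + B m0 (14 B R)^(al+1) ≤ C R`; `∫ vel_t² = v_0'² + ∑_(k ≥ 1) v_k'² ≤ C R²` (BSL).  By DER
`|R2'|, |F2'|, |S2'| ≤ C1 R^(al+2)`, `C1` depends on `al, B, m0`.  So if `C1 T R0^al ≤ η²/2` (`≤ 1/2`):
`|R2 - R²| ≤ R²/2`, `F2 ≤ (3/2) η² R²`, `S2 ≤ (3/2) R²` on `A`: strictly better than the conditions.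
`A` is an interval containing `0`, closed, and open in `[0, T]` (continuity): `A = [0, T]`. -/
def BooStmt : Prop := ∀ al B m0 η T : ℝ, 0 < al → 0 < B → 0 < m0 → 0 < η → η ≤ 1 → 0 < T →
  ∃ R0 : ℝ, 0 < R0 ∧ ∀ (X : Type) [MeasurableSpace X] (μ : Measure X) (b : ℕ → X → ℝ)
    (om : ℕ → ℝ) (M : ℕ) (p v : ℕ → ℝ → ℝ) (t0 R : ℝ), Ons μ b B m0 → Frq om → 1 ≤ M →
    Gal μ b om M al p v → 0 < R → R ≤ R0 → R2 p v t0 = R ^ 2 →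
    F2 M p v t0 ≤ η ^ 2 * R ^ 2 → S2 om M v t0 ≤ R ^ 2 → Wdw μ b om M al p v B η T t0 R

/-- ROT: oscillators with a small force (no hypotheses).  With `x = x_k(t0 + s)`, `y = y_k(t0 + s)`:
`X_k(s) = cos(om s) x - sin(om s) y`, `Y_k(s) = sin(om s) x + cos(om s) y` have the derivatives
`sin(om s) f_k`, `- cos(om s) f_k`, so the curve `(X_k, Y_k)_k` in `EuclideanSpace` has speed `≤ g` and
`∑ ((X_k - x_k(t0))² + (Y_k - y_k(t0))²) ≤ (g s)²` (`norm_image_sub_le_of_norm_deriv_le_segment`); this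
sum is the left-hand side (rotate back, index by index). -/
def RotStmt : Prop := ∀ (S : Finset ℕ) (om : ℕ → ℝ) (x y f : ℕ → ℝ → ℝ) (t0 T g : ℝ), 0 ≤ g →
  (∀ k ∈ S, ∀ t, HasDerivAt (x k) (om k * y k t) t) →
  (∀ k ∈ S, ∀ t, HasDerivAt (y k) (-(om k * x k t) - f k t) t) →
  (∀ s ∈ Icc 0 T, ∑ k ∈ S, f k (t0 + s) ^ 2 ≤ g ^ 2) → ∀ s ∈ Icc 0 T,
  ∑ k ∈ S, ((y k (t0 + s) - (y k t0 * Real.cos (om k * s) - x k t0 * Real.sin (om k * s))) ^ 2 +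
    (x k (t0 + s) - (x k t0 * Real.cos (om k * s) + y k t0 * Real.sin (om k * s))) ^ 2) ≤
      (g * s) ^ 2

/-- FRW: comparison with the free evolution on a window (uses BSL, DER, ROT).  `K R^(al+1)`,
`K = m0^(1/2) (14 B)^(al+1)`, bounds `(∑ G_k²)^(1/2) ≤ (∫ gl(vel)²)^(1/2)`; ROT for the modes `0`
(`x = p`, `y = v`, `f = G`), and for the modes `Ico 1 M`; BSL turns the sum of the squares into the
integral.  Second: `v_0' = - om_0 p_0 - G_0`, `om_0 ≤ 2`, `T ≥ 1`.  Fourth: ROT with `x_k = om_k v_k`,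
`y_k = dd v k`, `f_k = ∫ ql(vel) vel_t b_k` (DER), `(∑ f_k²)^(1/2) ≤ (∫ (ql(vel) vel_t)²)^(1/2) ≤
(al+1) (14 B R)^al C R` (`∫ vel_t² = v_0'² + ∑_(k≥1) v_k'² ≤ C² R²`, as in BOO, from `w0, w2, w4`). -/
def FrwStmt : Prop := ∀ al B m0 : ℝ, 0 < al → 0 < B → 0 < m0 → ∃ C : ℝ, 0 < C ∧
  ∀ (X : Type) [MeasurableSpace X] (μ : Measure X) (b : ℕ → X → ℝ) (om : ℕ → ℝ) (M : ℕ)
    (p v : ℕ → ℝ → ℝ) (η T t0 R : ℝ), Ons μ b B m0 → Frq om → 0 < η → η ≤ 1 → 1 ≤ T →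
    Wdw μ b om M al p v B η T t0 R → ∀ s ∈ Icc 0 T,
    |v 0 (t0 + s) - (v 0 t0 * Real.cos (om 0 * s) - p 0 t0 * Real.sin (om 0 * s))| ≤
      C * T * R ^ (al + 1) ∧
    |dd v 0 (t0 + s) + om 0 * (p 0 t0 * Real.cos (om 0 * s) + v 0 t0 * Real.sin (om 0 * s))| ≤
      C * T * R ^ (al + 1) ∧
    ∫ x, (vel b (Finset.Ico 1 M) v (t0 + s) x -
      fre b om (Finset.Ico 1 M) (fun k => p k t0) (fun k => v k t0) s x) ^ 2 ∂μ ≤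
        (C * T * R ^ (al + 1)) ^ 2 ∧
    ∫ x, (vel b (Finset.Ico 1 M) (dd v) (t0 + s) x -
      fre b om (Finset.Ico 1 M) (fun k => om k * v k t0) (fun k => dd v k t0) s x) ^ 2 ∂μ ≤
        (C * T * R ^ (al + 1)) ^ 2

/-- LVZ: the energy of the first mode over a step (uses TAY, DER, FRW, BSL).  `v_0(t0) = R cos θ`,
`p_0(t0) = R sin θ`, so the free evolution of `v_0` is `R cos(om_0 s + θ)`.
`R2' = - 2 v_0 ∫ gf(c + h) b_0`; `|∫ (gf(c+h) - gf(c)) b_0| ≤ C (14 B R)^al B ∫ |h| ≤ C R^al m0^(1/2)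
(∫ h²)^(1/2) ≤ C η R^(al+1)` (TAY with `D = 14 B R`; `|h| ≤ 14 B R + 2BR`, take `D = 16 B R`;
`∫ h² = ∑_(k≥1) v_k² ≤ F2 ≤ (4 η R)²`), and `v_0 ∫ gf(c) b_0 = |v_0|^(al+2) ∫ |b_0|^(al+2)`.  Integrate over
`[0, T]`: `| |v_0|^(al+2) - R^(al+2) |cos|^(al+2) | ≤ C R^(al+1) C T R^(al+1)` (TAY, fourth; the free
evolution is bounded by `R`) `= C (T R^al) R^(al+2)`, and `T R^al ≤ (T R^al)^m` as `T R^al ≤ 1`; `a0`;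
`∫ |b_0|^(al+2) ≤ B^(al+2) m0`. -/
def LvzStmt : Prop := ∀ al B m0 : ℝ, 0 < al → 0 < B → 0 < m0 → ∃ C : ℝ, 0 < C ∧
  ∀ (X : Type) [MeasurableSpace X] (μ : Measure X) (b : ℕ → X → ℝ) (om : ℕ → ℝ) (M : ℕ)
    (p v : ℕ → ℝ → ℝ) (γ ε η T t0 R : ℝ), Ons μ b B m0 → Frq om → 0 < ε → 0 < η → η ≤ 1 → 1 ≤ T →
    Avg μ b om al γ ε T → Wdw μ b om M al p v B η T t0 R → T * R ^ al ≤ 1 →
    |R2 p v (t0 + T) - R ^ 2 +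
      2 * (∫ x, |b 0 x| ^ (al + 2) ∂μ) * mc (al + 2) * T * R ^ (al + 2)| ≤
      C * (ε + η + (T * R ^ al) ^ (min al 1)) * T * R ^ (al + 2)

/-- LVO: the energy of the other modes over a step (uses TAY, DER, FRW, BSL).
`F2' = - 2 ∫ gf(c + h) h = - 2 ∫ gf(c) h - 2 (al+1) ∫ |c|^al h² + E`, `|E| ≤ 2 C (16 B R)^(al-m) (σ R)^m
∫ h² ≤ C σ^m R^al (4 η R)²` (TAY with `D = 16 B R`).  `V_k = v_k(t0)`, `P_k = p_k(t0)`, `f = fre`,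
`‖h - f‖ ≤ C T R^(al+1)` in `L²`, `‖h‖, ‖f‖ ≤ C R`; `|v_0|^al` differs from `R^al |cos(om_0 s+θ)|^al` by at
most `C R^(al-m) (C T R^(al+1))^m = C R^al (T R^al)^m` (TAY, first), and `|v_0|^al v_0` from
`R^(al+1) |cos|^al cos` by at most `C R^al C T R^(al+1)` (TAY, third).  So the integrals over `[0, T]` of
`|v_0|^al ∫ |b_0|^al h²` and `|v_0|^al v_0 ∫ |b_0|^al b_0 h` differ from the ones with the free evolution by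
at most `C T R^(al+2) ((T R^al)^m + T R^al)`, `T R^al ≤ (T R^al)^m`.  Then `a1`, `a2`
(`nn = F2(t0)`). -/
def LvoStmt : Prop := ∀ al B m0 : ℝ, 0 < al → 0 < B → 0 < m0 → ∃ C : ℝ, 0 < C ∧
  ∀ (X : Type) [MeasurableSpace X] (μ : Measure X) (b : ℕ → X → ℝ) (om : ℕ → ℝ) (M : ℕ)
    (p v : ℕ → ℝ → ℝ) (γ ε η T t0 R σ : ℝ), Ons μ b B m0 → Frq om → 0 < ε → 0 < η → η ≤ 1 →
    1 ≤ T → Avg μ b om al γ ε T → Wdw μ b om M al p v B η T t0 R → T * R ^ al ≤ 1 → 0 ≤ σ →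
    (∀ s ∈ Icc 0 T, ∀ x, |vel b (Finset.Ico 1 M) v (t0 + s) x| ≤ σ * R) →
    F2 M p v (t0 + T) ≤ F2 M p v t0 - 2 * (al + 1) * (γ - ε) * T * R ^ al * F2 M p v t0 +
      2 * ε * T * R ^ (al + 1) * Real.sqrt (F2 M p v t0) +
      C * (σ ^ (min al 1) * η ^ 2 + (T * R ^ al) ^ (min al 1)) * T * R ^ (al + 2)

/-- LVD: the energy of the time derivatives over a step (uses TAY, DER, FRW, BSL).  `h_t` =
`vel b (Ico 1 M) (dd v)`, `vel_t = v_0' b_0 + h_t`, `∫ h_t² ≤ S2 ≤ (4 R)²`, `|v_0'| ≤ C R`.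
`S2' = - 2 (al+1) ∫ |c+h|^al (v_0' b_0 + h_t) h_t`, and `| |c+h|^al - |c|^al | ≤ C R^al σ^m` (TAY), so
`S2' = - 2 (al+1) |v_0|^al ∫ |b_0|^al h_t² - 2 (al+1) |v_0|^al v_0' ∫ |b_0|^al b_0 h_t + E`,
`|E| ≤ C σ^m R^(al+2)`.  Free evolution (FRW, second and fourth): `v_0' ≈ - om_0 R sin(om_0 s + θ)`,
`h_t ≈ fre` with `P_k = om_k v_k(t0)`, `V_k = dd v k t0`, `nn = S2(t0)`; the errors are
`≤ C T R^(al+2) (T R^al)^m` as in LVO; `a1`, `a3`, `om_0 ≤ 2`. -/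
def LvdStmt : Prop := ∀ al B m0 : ℝ, 0 < al → 0 < B → 0 < m0 → ∃ C : ℝ, 0 < C ∧
  ∀ (X : Type) [MeasurableSpace X] (μ : Measure X) (b : ℕ → X → ℝ) (om : ℕ → ℝ) (M : ℕ)
    (p v : ℕ → ℝ → ℝ) (γ ε η T t0 R σ : ℝ), Ons μ b B m0 → Frq om → 0 < ε → 0 < η → η ≤ 1 →
    1 ≤ T → Avg μ b om al γ ε T → Wdw μ b om M al p v B η T t0 R → T * R ^ al ≤ 1 → 0 ≤ σ →
    (∀ s ∈ Icc 0 T, ∀ x, |vel b (Finset.Ico 1 M) v (t0 + s) x| ≤ σ * R) →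
    S2 om M v (t0 + T) ≤ S2 om M v t0 - 2 * (al + 1) * (γ - ε) * T * R ^ al * S2 om M v t0 +
      4 * (al + 1) * ε * T * R ^ (al + 1) * Real.sqrt (S2 om M v t0) +
      C * (σ ^ (min al 1) + (T * R ^ al) ^ (min al 1)) * T * R ^ (al + 2)

/-- CST: the cone is invariant (uses LIF, BOO, LVZ, LVO, LVD).  `m = min al 1`, `C` = the maximum of the
constants, `I = ∫ |b_0|^(al+2) ≤ B^(al+2) m0`, `x = I mc(al+2)`, `τ = T R^al`, `ω = τ^m`.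
`σ = B (4 η √N + 8/√N)` (LIF with `f = 4ηR`, `s = 4R`, `w1`, `w2`).  Choose `N` with
`C (16 B/√N)^m ≤ g0/8` and then `η ≤ 1` with `4 B η √N ≤ 8 B/√N`, `C η ≤ g0/8`; so `C σ^m ≤ g0/8`.
Then `ε` with `C ε ≤ g0/8`, `2(al+1) ε + 2 ε/η ≤ g0/4`, `2(al+1) ε + 4 (al+1) ε ≤ g0/4`.  Given the data:
`R0` so small that BOO applies, `τ ≤ 1`, `3 x τ ≤ 1/2`, `2(al+1) |γ - ε| τ ≤ 1`,
`C ω (1 + 1/η²) ≤ g0/8`.
LVZ: `R²(1 - 2xτ - (3/8) g0 τ) ≤ R2(t0+T) ≤ R²(1 - 2xτ + (3/8) g0 τ)`; `g0 ≤ x`: last two claims.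
LVO with `f = F2(t0) ≤ η² R²` (the right-hand side is increasing in `f`, as
`1 - 2(al+1)(γ-ε)τ ≥ 0`): `F2(t0+T) ≤ η² R² (1 - 2(al+1)(γ-ε) τ + 2 ε τ/η + C σ^m τ + C ω τ/η²) ≤
η² R² (1 - 2 x τ - 2 g0 τ + (g0/4 + g0/8 + g0/8) τ) ≤ η² R2(t0+T)`, as `2(al+1) γ ≥ 2x + 2 g0`.
LVD in the same way: `S2(t0+T) ≤ R² (1 - 2(al+1)(γ-ε) τ + 4(al+1) ε τ + C σ^m τ + C ω τ) ≤
R2(t0+T)`. -/
def CstStmt : Prop := ∀ al B m0 g0 : ℝ, 0 < al → 0 < B → 0 < m0 → 0 < g0 →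
  ∃ ε η : ℝ, 0 < ε ∧ 0 < η ∧ η ≤ 1 ∧
  ∀ (X : Type) [MeasurableSpace X] (μ : Measure X) (b : ℕ → X → ℝ) (om : ℕ → ℝ) (γ T : ℝ),
    Ons μ b B m0 → Frq om → 1 ≤ T → Avg μ b om al γ ε T →
    g0 ≤ (∫ x, |b 0 x| ^ (al + 2) ∂μ) * mc (al + 2) →
    (∫ x, |b 0 x| ^ (al + 2) ∂μ) * mc (al + 2) + g0 ≤ (al + 1) * γ → ∃ R0 : ℝ, 0 < R0 ∧
    ∀ (M : ℕ) (p v : ℕ → ℝ → ℝ) (t0 R : ℝ), 1 ≤ M → Gal μ b om M al p v → 0 < R → R ≤ R0 →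
    R2 p v t0 = R ^ 2 → F2 M p v t0 ≤ η ^ 2 * R ^ 2 → S2 om M v t0 ≤ R ^ 2 →
    Wdw μ b om M al p v B η T t0 R ∧
    3 * ((∫ x, |b 0 x| ^ (al + 2) ∂μ) * mc (al + 2) * T) * R ^ al ≤ 1 / 2 ∧
    F2 M p v (t0 + T) ≤ η ^ 2 * R2 p v (t0 + T) ∧ S2 om M v (t0 + T) ≤ R2 p v (t0 + T) ∧
    R ^ 2 * (1 - 3 * ((∫ x, |b 0 x| ^ (al + 2) ∂μ) * mc (al + 2) * T) * R ^ al) ≤
      R2 p v (t0 + T) ∧
    R2 p v (t0 + T) ≤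
      R ^ 2 * (1 - (∫ x, |b 0 x| ^ (al + 2) ∂μ) * mc (al + 2) * T * R ^ al)

/-- SEQ: a recursive sequence (no hypotheses).  `z_j = (r_j)^(-al)`.  `(1 - u)^(-al/2) ≥ 1 + (al/2) u` for
`0 ≤ u < 1` (Bernoulli), so `z_(j+1) ≥ z_j + (al/2) y`; `(1 - u)^(-al/2) ≤ 1 + K u` for `0 ≤ u ≤ 1/2`
(`K = al 2^(al/2+1)`, mean value theorem), so `z_(j+1) ≤ z_j + 3 K y` (`r` is nonincreasing, so
`3 y r_j^al ≤ 1/2`).  So `z_j` lies between `c' (1 + j)` and `C' (1 + j)`. -/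
def SeqStmt : Prop := ∀ al y r0 : ℝ, 0 < al → 0 < y → 0 < r0 → 3 * y * r0 ^ al ≤ 1 / 2 →
  ∃ c C : ℝ, 0 < c ∧ 0 < C ∧ ∀ r : ℕ → ℝ, r 0 = r0 → (∀ j, 0 < r j) →
  (∀ j, r j ^ 2 * (1 - 3 * y * r j ^ al) ≤ r (j + 1) ^ 2 ∧
    r (j + 1) ^ 2 ≤ r j ^ 2 * (1 - y * r j ^ al)) →
  ∀ j : ℕ, c * (1 + (j : ℝ)) ^ (-(2 / al)) ≤ r j ^ 2 ∧ r j ^ 2 ≤ C * (1 + (j : ℝ)) ^ (-(2 / al))

/-- DYN: the Galerkin solutions have the sharp rate, uniformly in `M` (uses BSL, CST, SEQ).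
`ε, η` from CST, `R0` from CST, `e0 ≤ R0` so small that `m0 (e0 B)^(2(al+1)) ≤ e0²` and `e0 B ≤ 1`.  At
`t = 0`: `R2 = e0²`, `F2 = 0`, `S2 = ∑_(k≥1) (dd v k 0)² = ∑ G_k² ≤ ∫ gl(e0 b_0)² ≤ e0²` (BSL;
`dd v k 0 = - om_k p_k - G_k`).  By induction, with `r_j = (R2 p v (j T))^(1/2)`: `0 < r_j ≤ R0`,
`F2(jT) ≤ η² r_j²`, `S2(jT) ≤ r_j²` (CST; `1 - 3 y r_j^al ≥ 1/2 > 0`, `y = x T`).  SEQ for `r`.  For
`t = jT + s`, `0 ≤ s < T`: `Wdw` gives `r_j²/4 ≤ R2 ≤ 4 r_j²`, `F2 ≤ 16 r_j²`, `|vel| ≤ 14 B r_j ≤ 1`, and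
`1 + j` is comparable with `1 + t` (`T ≥ 1`: `1 + j ≤ 1 + t ≤ (1 + T)(1 + j)`). -/
def DynStmt : Prop := ∀ al B m0 g0 : ℝ, 0 < al → 0 < B → 0 < m0 → 0 < g0 → ∃ ε : ℝ, 0 < ε ∧
  ∀ (X : Type) [MeasurableSpace X] (μ : Measure X) (b : ℕ → X → ℝ) (om : ℕ → ℝ) (γ T : ℝ),
    Ons μ b B m0 → Frq om → 1 ≤ T → Avg μ b om al γ ε T →
    g0 ≤ (∫ x, |b 0 x| ^ (al + 2) ∂μ) * mc (al + 2) →
    (∫ x, |b 0 x| ^ (al + 2) ∂μ) * mc (al + 2) + g0 ≤ (al + 1) * γ →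
    ∃ e0 c C : ℝ, 0 < e0 ∧ 0 < c ∧ 0 < C ∧ ∀ (M : ℕ) (p v : ℕ → ℝ → ℝ), 1 ≤ M →
    Gal μ b om M al p v → (∀ k < M, p k 0 = 0) → v 0 0 = e0 → (∀ k < M, 1 ≤ k → v k 0 = 0) →
    ∀ t, 0 ≤ t → c * (1 + t) ^ (-(2 / al)) ≤ R2 p v t ∧
      R2 p v t + F2 M p v t ≤ C * (1 + t) ^ (-(2 / al)) ∧
      ∀ x, |vel b (Finset.range M) v t x| ≤ 1

end

end Pool.Agent.BEW
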