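import Pool.Agent.BEW.StmtsD

/-!
# Squad BEW (MP_be01ff_an), part F: from the Galerkin systems to strong solutions in modes

`KK H`, `P1`, `P2`, `inj`, `PJ`, `Grp`, `IsFl`, `nem`, `ml`, `gl`, `ql`: `Pool/Agent/BEL/DefsG.lean`.  All the
rows `GRP GRQ ENG FLE FLP COO NEM GLP MLP RIN GPK` of `Pool/Agent/BEL/StmtsE.lean`, `StmtsC.lean` are
proved and may be imported:
`Helper33_BEL/GRP (H33.grp)`, `Helper39_BEL/GRQ (H39.grq)`, `Helper56_BEL/ENG (H56.eng grq)`,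
`Helper68_BEL/FLE (H68.fle grq)`, `Helper81_BEL/FLP (H81.flp grq eng)`, `Helper89_BEL/COO (H89.coo)`,
`Helper47_BEL/NEM (H47.nem)`, `Helper29_BEL/GLP (H29.glp)`, `Helper92_BEL/MLP (H92.mlp)`,
`Helper39_BEL/RIN (H39.rin)`, `Helper17_BEL/GPK (H17.gpk)`, `Helper69_BEL/Pic (H69.pic)`, all in the
namespace `Pool.Agent.BEL`.
-/

set_option autoImplicit false

namespace Pool.Agent.BEW

open Set Filter Topology MeasureTheory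
open scoped InnerProductSpace ENNReal NNReal
open Pool.Agent.BE01 Pool.Agent.BEL Pool.Agent.BEG Pool.Agent.BEH Pool.Agent.BER

noncomputable section

/-- The slope of `g`. -/
def slp (g g' : ℝ → ℝ) (x y : ℝ) : ℝ := by
  classical
  exact if x = y then g' x else (g x - g y) / (x - y)

/-- GLX: the Galerkin solutions as flows (no hypotheses; BEL rows FLE, COO, NEM, GLP, GPK).  FLE for
`F_M = P_M ∘ nem gl` (Lipschitz with the constant `al + 1`, `‖P_M‖ ≤ 1`), `p_k`, `v_k` = the coordinates,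
COO.  For `k ≥ M` the force is `0` and the initial values are `0`: `(p_k² + v_k²)' = 0`.  So
`P2 (W t (Z t)) = ∑_(k<M) v_k(t) e_k =ᵐ vel bb (range M) v t`, and for `k < M`
`⟪e_k, F_M(..)⟫ = ⟪e_k, nem gl (..)⟫ = ∫ gl(vel) bb_k` (NEM). -/
def GlxStmt : Prop := ∀ (X : Type) [MeasurableSpace X] (μ : Measure X) [IsFiniteMeasure μ]
  (e : HilbertBasis ℕ ℝ (Lp ℝ 2 μ)) (bb : ℕ → X → ℝ) (om : ℕ → ℝ)
  (W : ℝ → KK (Lp ℝ 2 μ) →L[ℝ] KK (Lp ℝ 2 μ)) (al e0 B m0 : ℝ) (M : ℕ), 0 < al → Grp e om W →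
  Ons μ bb B m0 → (∀ k, e k =ᵐ[μ] bb k) → 1 ≤ M →
  ∃ (Z : ℝ → KK (Lp ℝ 2 μ)) (p v : ℕ → ℝ → ℝ),
    IsFl W (fun u => PJ e (Finset.range M) (nem μ (gl 1 al 1) u)) (inj (e0 • e 0)) Z ∧
    Gal μ bb om M al p v ∧
    (∀ k t, ⟪e k, P1 (W t (Z t))⟫_ℝ = p k t ∧ ⟪e k, P2 (W t (Z t))⟫_ℝ = v k t) ∧
    (∀ k, M ≤ k → ∀ t, p k t = 0 ∧ v k t = 0) ∧
    (∀ k, p k 0 = 0) ∧ v 0 0 = e0 ∧ (∀ k, 1 ≤ k → v k 0 = 0) ∧
    (∀ t, ((P2 (W t (Z t)) : Lp ℝ 2 μ) : X → ℝ) =ᵐ[μ] vel bb (Finset.range M) v t) ∧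
    ∀ t, ‖P1 (W t (Z t))‖ ^ 2 + ‖P2 (W t (Z t))‖ ^ 2 = R2 p v t + F2 M p v t

/-- GCN: convergence of the Galerkin flows (no hypotheses; BEL rows GRQ, ENG, FLP, COO, GPK).
`D = Z_n - Z`, `v_n = P2 (W t (Z_n t))`, `v = P2 (W t (Z t))`, `P_n = PJ e (range n)`, `P_n v_n = v_n`
(coordinates, as in GLX).  ENG: `‖D t‖² = - 2 ∫_0^t ⟪P_n F(v_n) - F(v), v_n - v⟫`, and
`⟪P_n F(v_n) - F(v), v_n - v⟫ = ⟪F(v_n) - F(v), v_n - v⟫ + ⟪F(v_n) - F(v), v - P_n v⟫ -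
⟪F(v) - P_n F(v), v_n - v⟫ ≥ - ‖v_n - v‖ (K ‖v - P_n v‖ + ‖F(v) - P_n F(v)‖)`.  `‖D‖ ≤ 2 |c|` (the norms
are nonincreasing: `⟪P_n F(v_n), v_n⟫ = ⟪F(v_n), v_n⟫ ≥ 0`).  Dominated convergence on `[0, t]` (`v`,
`F(v)` are continuous curves, `P_n u → u` for every `u`). -/
def GcnStmt : Prop := ∀ (H : Type) [NormedAddCommGroup H] [InnerProductSpace ℝ H]
  [CompleteSpace H] (e : HilbertBasis ℕ ℝ H) (om : ℕ → ℝ) (W : ℝ → KK H →L[ℝ] KK H) (F : H → H)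
  (K : ℝ≥0) (c : ℝ) (Z : ℝ → KK H) (Zn : ℕ → ℝ → KK H), Grp e om W → LipschitzWith K F →
  (∀ x y, 0 ≤ ⟪F x - F y, x - y⟫_ℝ) → F 0 = 0 → IsFl W F (inj (c • e 0)) Z →
  (∀ n, 1 ≤ n → IsFl W (fun u => PJ e (Finset.range n) (F u)) (inj (c • e 0)) (Zn n)) →
  ∀ t, 0 ≤ t → Tendsto (fun n => Zn n t) atTop (𝓝 (Z t))

/-- SLO: the slope operators (no hypotheses; BEL rows NEM, MLP).  `0 ≤ slp ≤ K` (mean value theorem),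
`slp` is measurable in both variables and `slp g g' x_n y → g' y` for `x_n → y` (difference quotient,
`g'` continuous at `y`).  Last two claims: it is enough to treat sequences (`tendsto_of_seq_tendsto`)
and subsequences (`tendsto_of_subseq_tendsto`) along which `v (t + h_n) → v t` almost everywhere
(`TendstoInMeasure.exists_seq_tendsto_ae`); dominated convergence in `L²` with the bound `2 K |y|`. -/
def SloStmt : Prop := ∀ (X : Type) [MeasurableSpace X] (μ : Measure X) [IsFiniteMeasure μ]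
  (g g' : ℝ → ℝ) (K : ℝ≥0) (v : ℝ → Lp ℝ 2 μ), (∀ s, HasDerivAt g (g' s) s) → Continuous g' →
  (∀ s, 0 ≤ g' s) → (∀ s, g' s ≤ K) → g 0 = 0 → Continuous v →
  (∀ t h, nem μ g (v (t + h)) - nem μ g (v t) =
    ml μ (fun x => slp g g' (v (t + h) x) (v t x)) (v (t + h) - v t)) ∧
  (∀ t h (y : Lp ℝ 2 μ), ‖ml μ (fun x => slp g g' (v (t + h) x) (v t x)) y‖ ≤ K * ‖y‖) ∧
  (∀ t (y : Lp ℝ 2 μ), Tendsto (fun h => ml μ (fun x => slp g g' (v (t + h) x) (v t x)) y) (𝓝 0)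
    (𝓝 (ml μ (fun x => g' (v t x)) y))) ∧
  ∀ y : ℝ → Lp ℝ 2 μ, Continuous y → Continuous fun t => ml μ (fun x => g' (v t x)) (y t)

/-- LNF: the linearized flow (uses SLO; BEL rows GRQ, MLP and `H69.pic`).  `pic` with
`f t x = - W(-t) inj (ml (g' ∘ v t) (P2 (W t x)))`, Lipschitz with the constant `K`. -/
def LnfStmt : Prop := ∀ (X : Type) [MeasurableSpace X] (μ : Measure X) [IsFiniteMeasure μ]
  (e : HilbertBasis ℕ ℝ (Lp ℝ 2 μ)) (om : ℕ → ℝ) (W : ℝ → KK (Lp ℝ 2 μ) →L[ℝ] KK (Lp ℝ 2 μ))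
  (g g' : ℝ → ℝ) (K : ℝ≥0) (v : ℝ → Lp ℝ 2 μ) (Y0 : KK (Lp ℝ 2 μ)), Grp e om W →
  (∀ s, HasDerivAt g (g' s) s) → Continuous g' → (∀ s, 0 ≤ g' s) → (∀ s, g' s ≤ K) → g 0 = 0 →
  Continuous v → ∃ Y : ℝ → KK (Lp ℝ 2 μ), Y 0 = Y0 ∧ ∀ t, HasDerivAt Y
    (-(W (-t) (inj (ml μ (fun x => g' (v t x)) (P2 (W t (Y t))))))) t

/-- FRC: the flow is `C^1` in the energy space (uses SLO, LNF; BEL rows GRQ, NEM, FLP, MLP).
`U t = W t (Z t)`, `v = P2 U`, `V = inj (c e_0)`.  For `h ≠ 0`: `E_h(t) = h⁻¹ (W h (Z (t + h)) - Z t)` (so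
`W t (E_h t) = h⁻¹ (U(t+h) - U t)`) has the derivative
`- W(-t) inj (h⁻¹ (F(v(t+h)) - F(v t))) = - W(-t) inj (m_h(t) P2 (W t (E_h t)))`, `m_h(t)` =
multiplication by the slope (SLO, first).  `E_h(0) = W h (h⁻¹ (Z h - V)) + h⁻¹ (W h V - V) → Y0 =
- inj (F(P2 V)) + (om_0 c e_0, 0)` (`W h V = c (sin(om_0 h) e_0, cos(om_0 h) e_0)`, coordinates).  `Y` from
LNF with this `Y0`; `D = E_h - Y` has the derivative `- W(-t) inj (m_h P2 (W t D) +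
(m_h - g'(v)) P2 (W t Y))`, so `‖D(t)‖ ≤ ‖D(0)‖ + |∫_0^t (K ‖D‖ + ρ_h)|`,
`ρ_h(s) = ‖(m_h(s) - g'(v s)) P2 (W s (Y s))‖ ≤ 2K ‖Y s‖`, `ρ_h(s) → 0` for every `s` (SLO), so
`∫ ρ_h → 0` (dominated convergence; `ρ_h` is measurable, being a limit or by continuity in `s` for
fixed `h ≠ 0`), and Gronwall: `D(t) → 0` as `h → 0`.  So `U` has the derivative `W t (Y t)`,
continuous (GRQ). -/
def FrcStmt : Prop := ∀ (X : Type) [MeasurableSpace X] (μ : Measure X) [IsFiniteMeasure μ]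
  (e : HilbertBasis ℕ ℝ (Lp ℝ 2 μ)) (om : ℕ → ℝ) (W : ℝ → KK (Lp ℝ 2 μ) →L[ℝ] KK (Lp ℝ 2 μ))
  (g g' : ℝ → ℝ) (K : ℝ≥0) (c : ℝ) (Z : ℝ → KK (Lp ℝ 2 μ)), Grp e om W →
  (∀ s, HasDerivAt g (g' s) s) → Continuous g' → (∀ s, 0 ≤ g' s) → (∀ s, g' s ≤ K) → g 0 = 0 →
  IsFl W (nem μ g) (inj (c • e 0)) Z →
  ∃ Y : ℝ → KK (Lp ℝ 2 μ), Continuous Y ∧ ∀ t, HasDerivAt (fun t => W t (Z t)) (Y t) t

/-- MSO: strong solutions in modes (uses GLX, GCN, FRC; BEL rows GRP, FLE, COO, NEM, GLP).  `W` from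
GRP, `Z` = the flow of `nem (gl 1 al 1)` with the initial value `inj (e0 e_0)` (FLE), `g' = ql 1 al 1 ≤
al + 1`.  `P = P1 (W t (Z t))`, `V = P2 (W t (Z t))`, `(L, w) = Y` from FRC; `mL`, `mw`: COO and
uniqueness of the derivative; for `t ≥ 0` `|V| ≤ 1` a.e., so `gl(V) = gf(V)` a.e.  For `t ≥ 0`:
`W t (Z_n t) → W t (Z t)` (GCN, GLX with `M = n ≥ 1`), so `V` is the limit in `L²` of functions bounded
by `1`, and `‖P‖² + ‖V‖² = lim (R2 + F2)`, `R2 + F2 ≥ R2`. -/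
def MsoStmt : Prop := ∀ (X : Type) [MeasurableSpace X] (μ : Measure X) [IsFiniteMeasure μ]
  (e : HilbertBasis ℕ ℝ (Lp ℝ 2 μ)) (bb : ℕ → X → ℝ) (om : ℕ → ℝ) (al e0 B m0 c C : ℝ), 0 < al →
  Frq om → Ons μ bb B m0 → (∀ k, e k =ᵐ[μ] bb k) →
  (∀ (M : ℕ) (p v : ℕ → ℝ → ℝ), 1 ≤ M → Gal μ bb om M al p v → (∀ k < M, p k 0 = 0) →
    v 0 0 = e0 → (∀ k < M, 1 ≤ k → v k 0 = 0) → ∀ t, 0 ≤ t →
    c * (1 + t) ^ (-(2 / al)) ≤ R2 p v t ∧ R2 p v t + F2 M p v t ≤ C * (1 + t) ^ (-(2 / al)) ∧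
      ∀ x, |vel bb (Finset.range M) v t x| ≤ 1) →
  ∃ P V L w : ℝ → Lp ℝ 2 μ, Msl μ e om al P V L w ∧ ∀ t, 0 ≤ t →
    c * (1 + t) ^ (-(2 / al)) ≤ ‖P t‖ ^ 2 + ‖V t‖ ^ 2 ∧
    ‖P t‖ ^ 2 + ‖V t‖ ^ 2 ≤ C * (1 + t) ^ (-(2 / al))

end

end Pool.Agent.BEW
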