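import Pool.Agent.BEW.StmtsS
import Pool.Agent.BEW.StmtsF

/-!
# Squad BEW (MP_be01ff_an), part P: back to the shell, and the theorem

`Wk`: weak equation (`Pool/Agent/BEG/Defs.lean`); `Rt`: `Pool/Agent/BEH/Defs.lean`; `IsSol`, `H10`:
`Pool/Agent/BE01/DefsC.lean`.
-/

set_option autoImplicit false

namespace Pool.Agent.BEW

open Set Filter Topology MeasureTheory
open scoped InnerProductSpace ENNReal NNReal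
open Pool.Agent.BE01 Pool.Agent.BEL Pool.Agent.BEG Pool.Agent.BEH Pool.Agent.BER

noncomputable section

/-- `J f = f ∘ ‖·‖`, an isometry of `L²(nu)` into `L²` of the shell up to the factor `m^(1/2)`. -/
structure Rdl (d : ℕ) (β m : ℝ)
    (J : Lp ℝ 2 (nu d β) →L[ℝ] Lp ℝ 2 (mu (Sh d β (β + Real.pi)))) : Prop where
  pos : 0 < m
  ac : ∀ p : ℝ → Prop, (∀ᵐ r ∂(nu d β), p r) → ∀ᵐ x ∂(mu (Sh d β (β + Real.pi))), p ‖x‖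
  ev : ∀ f, J f =ᵐ[mu (Sh d β (β + Real.pi))] fun x => f ‖x‖
  nrm : ∀ f, ‖J f‖ ^ 2 = m * ‖f‖ ^ 2

/-- POL: polar coordinates (uses NUF).  `μ1` = image of `mu (Sh ..)` under `‖·‖`; for measurable `A`,
`I = (β, β + π)`: `μ1 A = ∫ 1_(A ∩ I)(‖x‖) dx = d vol(B_1) ∫_(A ∩ I) r^(d-1) dr`
(`MeasureTheory.integral_fun_norm_addHaar`), so `μ1 = ofReal m • nu d β`, `m = d vol(B_1) β^(d-1)`.
`ac`: `ae_of_ae_map`.  `J`: `f ∘ ‖·‖` is in `L²` (`MemLp.comp_measurePreserving` or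
`memLp_map_measure_iff`), norm: `eLpNorm_map_measure`, `eLpNorm_smul_measure_of_ne_zero`. -/
def PolStmt : Prop := ∀ (d : ℕ) (β : ℝ), 2 ≤ d → 0 < β →
  ∃ (m : ℝ) (J : Lp ℝ 2 (nu d β) →L[ℝ] Lp ℝ 2 (mu (Sh d β (β + Real.pi)))), Rdl d β m J

/-- RLP: the Laplacian of the radial sines (no hypotheses; compare `Helper19_BER/HSD.lean`).
`u(r) = sg d β k r = (r/β)^(-κ) w(r - β)`, `κ = (d-1)/2`, `w'' = - (k+1)² w`; for `t = r²`: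
`Ld d 0 (u ∘ √) t = u'' + (d-1) u'/r = (r/β)^(-κ) (w'' - κ(κ-1) w/r²)`, `κ(κ-1) = cd d`. -/
def RlpStmt : Prop := ∀ (d : ℕ) (β : ℝ) (k : ℕ), 2 ≤ d → 0 < β →
  ContDiffOn ℝ ((⊤ : ℕ∞) : WithTop ℕ∞) (fun t => sg d β k (Real.sqrt t)) (Ioi 0) ∧
  ∀ t : ℝ, 0 < t → Ld d 0 (fun t => sg d β k (Real.sqrt t)) t =
    -((((k : ℝ) + 1) ^ 2 + cd d / t) * sg d β k (Real.sqrt t))

/-- RSM: the radial sines in the shell (uses RLP and `RwdStmt`, `RhdStmt` of squad BER, proved).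
RHD with `g = sg ∘ √` (zero at `β²` and `(β+π)²`): `(f, G) ∈ H10`, `f = g(‖x‖²) = J (s k)` a.e. (`Rdl.ev`,
`Rdl.ac`).  RWD and RLP: `∫ ⟪G, ∇ψ⟫ = ∫ ((k+1)² + cd/‖x‖²) sg(‖x‖) ψ`, and this function is
`J ((k+1)² s k + Bo (s k))` a.e. -/
def RsmStmt : Prop := ∀ (d : ℕ) (β m : ℝ)
  (J : Lp ℝ 2 (nu d β) →L[ℝ] Lp ℝ 2 (mu (Sh d β (β + Real.pi))))
  (s : HilbertBasis ℕ ℝ (Lp ℝ 2 (nu d β))) (Bo : Lp ℝ 2 (nu d β) →L[ℝ] Lp ℝ 2 (nu d β)) (k : ℕ),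
  2 ≤ d → 0 < β → Rdl d β m J → (∀ k, s k =ᵐ[nu d β] sg d β k) →
  (∀ f, Bo f =ᵐ[nu d β] fun r => cd d / r ^ 2 * f r) →
  ∃ G : Lp (En d) 2 (mu (Sh d β (β + Real.pi))), (J (s k), G) ∈ H10 (Sh d β (β + Real.pi)) ∧
    Wk (Sh d β (β + Real.pi)) G (J (((k : ℝ) + 1) ^ 2 • s k + Bo (s k)))

/-- EIG: the eigenfunctions (uses RSM and `Pool.Agent.BEO.WeoStmt`, proved: `Pool.Agent.BEO.H19.weo`).
`c_m = ⟪s m, x⟫`; `(m+1)² c_m = l c_m - ⟪s m, Bo x⟫` is square summable.  `x_n = ∑_(m<n) c_m s m → x`,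
`y_n = ∑_(m<n) c_m (m+1)² s m + Bo x_n → (l x - Bo x) + Bo x = l x`, `G_n = ∑_(m<n) c_m G_m` (RSM):
`(J x_n, G_n) ∈ H10` (`H10` is a linear subspace), `Wk G_n (J y_n)`.  WEO:
`‖G_n - G_n'‖² = ∫ J(y_n - y_n') J(x_n - x_n') ≤ m ‖y_n - y_n'‖ ‖x_n - x_n'‖ → 0`: `G_n → G`; `H10` is
closed, `Wk` passes to the limit. -/
def EigStmt : Prop := ∀ (d : ℕ) (β m l : ℝ)
  (J : Lp ℝ 2 (nu d β) →L[ℝ] Lp ℝ 2 (mu (Sh d β (β + Real.pi))))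
  (s : HilbertBasis ℕ ℝ (Lp ℝ 2 (nu d β))) (Bo : Lp ℝ 2 (nu d β) →L[ℝ] Lp ℝ 2 (nu d β))
  (x : Lp ℝ 2 (nu d β)), 2 ≤ d → 0 < β → Rdl d β m J → (∀ k, s k =ᵐ[nu d β] sg d β k) →
  (∀ f, Bo f =ᵐ[nu d β] fun r => cd d / r ^ 2 * f r) → Egn (fun m => s m) Bo l x →
  ∃ G : Lp (En d) 2 (mu (Sh d β (β + Real.pi))), (J x, G) ∈ H10 (Sh d β (β + Real.pi)) ∧
    Wk (Sh d β (β + Real.pi)) G (l • J x)

/-- GRD: the gradient map (uses `Pool.Agent.BEO.WeoStmt`).  `G_k` from the hypothesis, `g_k = G_k/om k`;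
WEO: `∫ ⟪g_k, g_l⟫ = (om k/om l) ∫ J e_k J e_l = m δ_kl`.  `Gr h = ∑ ⟪e k, h⟫ g_k`, `‖Gr h‖² = m ‖h‖²`.
`(J (R h_n), Gr h_n) ∈ H10` for the partial sums `h_n` of `h` (linear subspace), closed.  Last claim:
`∫ ⟪Gr h, ∇ψ⟫ = lim ∑_(k<n) (⟪e k, h⟫/om k) om k² ∫ J e_k ψ = lim ∑_(k<n) ⟪e k, y⟫ ∫ J e_k ψ =
∫ J y ψ`. -/
def GrdStmt : Prop := ∀ (d : ℕ) (β m : ℝ)
  (J : Lp ℝ 2 (nu d β) →L[ℝ] Lp ℝ 2 (mu (Sh d β (β + Real.pi))))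
  (e : HilbertBasis ℕ ℝ (Lp ℝ 2 (nu d β))) (om : ℕ → ℝ)
  (R : Lp ℝ 2 (nu d β) →L[ℝ] Lp ℝ 2 (nu d β)), 2 ≤ d → 0 < β → Rdl d β m J →
  (∀ k : ℕ, ((k : ℝ) + 1) / 2 ≤ om k) → IsR e om R →
  (∀ k, ∃ G : Lp (En d) 2 (mu (Sh d β (β + Real.pi))),
    (J (e k), G) ∈ H10 (Sh d β (β + Real.pi)) ∧
    Wk (Sh d β (β + Real.pi)) G ((om k) ^ 2 • J (e k))) →
  ∃ Gr : Lp ℝ 2 (nu d β) →L[ℝ] Lp (En d) 2 (mu (Sh d β (β + Real.pi))),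
    (∀ h, (J (R h), Gr h) ∈ H10 (Sh d β (β + Real.pi))) ∧ (∀ h, ‖Gr h‖ ^ 2 = m * ‖h‖ ^ 2) ∧
    ∀ h y, (∀ k, ⟪e k, y⟫_ℝ = om k * ⟪e k, h⟫_ℝ) → Wk (Sh d β (β + Real.pi)) (Gr h) (J y)

/-- SLA: the solution in the shell (uses GRD; BEL row RIN `Pool.Agent.BEL.H39.rin` for `R`, `NUF`).
`u = J (R P)`, `v = J V`, `w' = J w`, `G = Gr P`; `R L = V` (coordinates), so `u' = J (R L) = v`, and
`(v, Gr L) ∈ H10`.  `F` = the class of `gf 1 al (V t)` in `L²(nu)` (`|V| ≤ 1`), `J F = |v|^al v` a.e.;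
`y = - w - F` satisfies `⟪e k, y⟫ = om k ⟪e k, P⟫` (`mw`): `Wk (Gr P) (J y)`, i.e. the equation.
`energy = ‖J V‖² + ‖Gr P‖² = m (‖P‖² + ‖V‖²)`. -/
def SlaStmt : Prop := ∀ (d : ℕ) (β al m c C : ℝ)
  (J : Lp ℝ 2 (nu d β) →L[ℝ] Lp ℝ 2 (mu (Sh d β (β + Real.pi))))
  (e : HilbertBasis ℕ ℝ (Lp ℝ 2 (nu d β))) (om : ℕ → ℝ) (P V L w : ℝ → Lp ℝ 2 (nu d β)),
  2 ≤ d → 0 < β → 0 < al → Rdl d β m J → (∀ k : ℕ, ((k : ℝ) + 1) / 2 ≤ om k) →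
  (∀ k, ∃ G : Lp (En d) 2 (mu (Sh d β (β + Real.pi))),
    (J (e k), G) ∈ H10 (Sh d β (β + Real.pi)) ∧
    Wk (Sh d β (β + Real.pi)) G ((om k) ^ 2 • J (e k))) →
  Msl (nu d β) e om al P V L w → 0 < c →
  (∀ t, 0 ≤ t → c * (1 + t) ^ (-(2 / al)) ≤ ‖P t‖ ^ 2 + ‖V t‖ ^ 2 ∧
    ‖P t‖ ^ 2 + ‖V t‖ ^ 2 ≤ C * (1 + t) ^ (-(2 / al))) →
  Rt (Sh d β (β + Real.pi)) 1 al

/-- THS: thin shells of the width `π` (uses NUF, MCR-free list: DYN, AVG, PKG, DAT, MSO, EIG, POL, SLA).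
`g0, γ, ε1, β1` from PKG; `B = 2`, `m0 = 4 · 5^d`; `ε` from DYN; `Jn` from AVG; `β2` from DAT (`ε1`, `Jn`);
`β ≥ max β1 β2`.  DAT: `δ > 0` (`Nrs.pos`), `Ons (nu d β) bb 2 m0` (`rep`, orthonormality of `e`, NUF), `T`
from AVG, `Avg`; the gap from PKG; DYN: `e0, c, C`; MSO: `Msl`; EIG for `e k` with
`lam k = (√(lam k))²` (`√(lam k) > 0` by `Frq`); POL; SLA. -/
def ThsStmt : Prop := ∀ (d : ℕ) (al : ℝ), 2 ≤ d → d ≠ 3 → 0 < al → ∃ β0 : ℝ, 1 ≤ β0 ∧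
  ∀ β : ℝ, β0 ≤ β → Rt (Sh d β (β + Real.pi)) 1 al

/-- DSC: scaling of the shell (no hypotheses).  `u_s(t, x) = u(t/s, x/s)`, `v_s = s⁻¹ v(t/s, x/s)`,
`w_s = s⁻² w(..)`, `G_s = s⁻¹ G(..)`; test functions `ψ(s ·)`; the equation
`s⁻² (w - div G + a |v|^al v) = 0` with `a s^(al-1) s^(-(al+1)) = a s⁻²`; energy `s^(d-2) E(t/s)`,
`(1 + t/s)` is comparable with `1 + t`.  In `Lp`: the linear map `f ↦ f(s⁻¹ ·)` from `L²(Sh d r1 r2)` to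
`L²(Sh d (s r1) (s r2))` (norm `s^(d/2)`), and the same for the gradients; or with functions
(`Helper70_BE01/Fun.lean`, `Conv.lean`), compare the row SCE of squad BEP (`Pool/Agent/BEP/Stmts.lean`). -/
def DscStmt : Prop := ∀ (d : ℕ) (r1 r2 s a al : ℝ), 2 ≤ d → 0 < r1 → r1 < r2 → 0 < s → 0 < a →
  0 < al → Rt (Sh d r1 r2) a al → Rt (Sh d (s * r1) (s * r2)) (a * s ^ (al - 1)) al

/-- THF: THE THEOREM (uses THS, DSC; `Pool.Agent.BEH.H22.rt_scale` in `Helper22_BEH/Sca.lean`).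
`κ = π/β0`, `β = π r1/(r2 - r1) ≥ β0`, `s = (r2 - r1)/π`: `s β = r1`, `s (β + π) = r2`; `rt_scale`
changes the constant `a`. -/
def ThfStmt : Prop := ∀ (d : ℕ) (al : ℝ), 2 ≤ d → d ≠ 3 → 0 < al → ∃ κ : ℝ, 0 < κ ∧
  ∀ r1 r2 a : ℝ, 0 < r1 → r1 < r2 → r2 ≤ (1 + κ) * r1 → 0 < a → Rt (Sh d r1 r2) a al

end

end Pool.Agent.BEW
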