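import Pool.Agent.BEW.StmtsA

/-!
# Squad BEW (MP_be01ff_an), part S: the radial spectrum of a thin shell

Shell `β < |x| < β + π`, `β` large.  For `u = ρ^(-(d-1)/2) w(r - β)`, `ρ = r/β`:
`- Δ u = ρ^(-(d-1)/2) (- w'' + (c/r²) w)`, `c = cd d = (d-1)(d-3)/4 ≠ 0`; the potential `c/r²` is close to
the constant `c/β²`.
-/

set_option autoImplicit false

namespace Pool.Agent.BEW

open Set Filter Topology MeasureTheory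
open scoped InnerProductSpace ENNReal NNReal
open Pool.Agent.BE01 Pool.Agent.BEL Pool.Agent.BEG Pool.Agent.BEH Pool.Agent.BER

noncomputable section

/-- `lam k`, `e k` are the eigenvalues and eigenvectors of `diag ((m+1)²) + Bo` in the basis `s`. -/
def Egn {H : Type} [NormedAddCommGroup H] [InnerProductSpace ℝ H] (s : ℕ → H)
    (Bo : H →L[ℝ] H) (lam : ℝ) (x : H) : Prop :=
  ∀ m : ℕ, ((m : ℝ) + 1) ^ 2 * ⟪s m, x⟫_ℝ + ⟪s m, Bo x⟫_ℝ = lam * ⟪s m, x⟫_ℝ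

/-- The data of the shell: sine basis `s`, potential `Bo`, eigenbasis `e` with the eigenvalues `lam`
and the representatives `bb`. -/
structure Dat (d : ℕ) (β ε1 : ℝ) (J : ℕ) (δ : ℝ) (s e : HilbertBasis ℕ ℝ (Lp ℝ 2 (nu d β)))
    (Bo : Lp ℝ 2 (nu d β) →L[ℝ] Lp ℝ 2 (nu d β)) (lam : ℕ → ℝ) (bb : ℕ → ℝ → ℝ) : Prop where
  sb : ∀ k, s k =ᵐ[nu d β] sg d β k
  bo : ∀ f, Bo f =ᵐ[nu d β] fun r => cd d / r ^ 2 * f r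
  eg : ∀ k, Egn (fun m => s m) Bo (lam k) (e k)
  nrs : Nrs (fun k => Real.sqrt (lam k)) J δ
  frq : Frq fun k => Real.sqrt (lam k)
  meas : ∀ k, Measurable (bb k)
  rep : ∀ k, e k =ᵐ[nu d β] bb k
  cls : ∀ k, ∀ r ∈ Ioo β (β + Real.pi), |bb k r - sg d β k r| ≤ ε1
  bdd : ∀ k r, |bb k r| ≤ 2

/-- NUF: the measure `nu` (no hypotheses).  `(r/β)^(d-1) ≤ (1 + π)^(d-1) ≤ 5^d` for `β ≥ 1`.  Last claim: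
`integral_withDensity_eq_integral_toReal_smul` (or `integral_withDensity_eq_integral_smul`); it holds
for all `f`, the density is positive on `(β, β + π)`. -/
def NufStmt : Prop := ∀ (d : ℕ) (β : ℝ), 0 < β → IsFiniteMeasure (nu d β) ∧
  (1 ≤ β → (nu d β).real univ ≤ 4 * 5 ^ d) ∧ (∀ᵐ r ∂(nu d β), r ∈ Ioo β (β + Real.pi)) ∧
  (∀ A : Set ℝ, nu d β A = 0 ↔ volume (A ∩ Ioo β (β + Real.pi)) = 0) ∧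
  ∀ f : ℝ → ℝ, ∫ r, f r ∂(nu d β) = ∫ r in Ioo β (β + Real.pi), f r * (r / β) ^ (d - 1)

/-- SBS: the sine basis (uses NUF).  Orthonormal: the weights cancel, `(2/π) ∫_0^π sin((k+1)x)
sin((l+1)x) dx = δ_kl`.  Complete (`HilbertBasis.mkOfOrthogonalEqBot`): let `f ⟂ sg k` for all `k`;
`F(x) = f(β + x) ρ^((d-1)/2)`, `x ∈ (0, π)`, is in `L²` and orthogonal to all `sin((k+1)x) =
sin x U_k(cos x)`, `U_k` a polynomial of degree `k` (Chebyshev), so `∫ F sin x (cos x)^k dx = 0` for all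
`k` (induction), so `∫ F sin x φ(cos x) dx = 0` for all continuous `φ` (Weierstrass), so `F sin x = 0` a.e.
(image measure under `cos`, injective; or `φ ∘ cos` = all continuous functions on `[0, π]`). -/
def SbsStmt : Prop := ∀ (d : ℕ) (β : ℝ), 2 ≤ d → 0 < β →
  ∃ s : HilbertBasis ℕ ℝ (Lp ℝ 2 (nu d β)), ∀ k, s k =ᵐ[nu d β] sg d β k

/-- OPB: the potential (uses NUF; BEL row MLP: `Pool.Agent.BEL.H92.mlp` for a measurable bounded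
function, here `cd d / r²` times the indicator of `r > β`).  `1/β² - 1/r² = (r-β)(r+β)/(β² r²) ≤
2π/β³ ≤ 8/β³` on `(β, β + π)`. -/
def OpbStmt : Prop := ∀ (d : ℕ) (β : ℝ), 2 ≤ d → 1 ≤ β →
  ∃ Bo : Lp ℝ 2 (nu d β) →L[ℝ] Lp ℝ 2 (nu d β), (∀ f, Bo f =ᵐ[nu d β] fun r => cd d / r ^ 2 * f r) ∧
    (∀ f g, ⟪Bo f, g⟫_ℝ = ⟪f, Bo g⟫_ℝ) ∧
    ∀ f, ‖Bo f - (cd d / β ^ 2) • f‖ ≤ 8 * |cd d| / β ^ 3 * ‖f‖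

/-- PTA: one eigenvector near `s k` (no hypotheses).  `n = k + 1`, `B1 = Bo - c0`, `D_m(h) = (m+1)² - n² -
b(h)`, `b(h) = ⟪s k, B1 (s k + h)⟫`, `|b| ≤ 2ε ≤ 1/4` for `‖h‖ ≤ 1`.  For `m ≠ k`:
`|(m+1)² - n²| ≥ max (3, 2n - 1, 3 |m - k|)`, so `|D_m| ≥ n` and `|D_m| ≥ |m - k|`.  `Φ(h)` = the vector with
`⟪s k, Φ h⟫ = 0`, `⟪s m, Φ h⟫ = - ⟪s m, B1 (s k + h)⟫ / D_m(h)` maps the closed set `{‖h‖ ≤ 1, ⟪s k, h⟫ = 0}`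
into itself, `‖Φ h‖ ≤ 2ε/n`, with the Lipschitz constant `ε/n + 2ε ε/n² ≤ 1/2`: fixed point `h`.
`lam = n² + c0 + b(h)`.  `∑_m |⟪s m, h⟫| ≤ ‖B1 (s k + h)‖ (∑_(m≠k) D_m^(-2))^(1/2) ≤ 2ε · 2`
(`∑_(i≠0) 1/i² ≤ 4`). -/
def PtaStmt : Prop := ∀ (H : Type) [NormedAddCommGroup H] [InnerProductSpace ℝ H]
  [CompleteSpace H] (s : HilbertBasis ℕ ℝ H) (Bo : H →L[ℝ] H) (c0 ε : ℝ) (k : ℕ), 0 ≤ ε →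
  ε ≤ 1 / 8 → (∀ x, ‖Bo x - c0 • x‖ ≤ ε * ‖x‖) →
  ∃ (h : H) (lam : ℝ), ⟪s k, h⟫_ℝ = 0 ∧ ‖h‖ ≤ 2 * ε / ((k : ℝ) + 1) ∧
    |lam - (((k : ℝ) + 1) ^ 2 + c0)| ≤ 2 * ε ∧ Egn (fun m => s m) Bo lam (s k + h) ∧
    ∀ n : ℕ, ∑ m ∈ Finset.range n, |⟪s m, h⟫_ℝ| ≤ 4 * ε

/-- PTB: the eigenbasis (uses PTA).  `e k = (s k + h_k)/‖s k + h_k‖`, `1 ≤ ‖s k + h_k‖ ≤ 1 + ‖h_k‖²/2`.
Orthogonality: with `x = e k`, `y = e l`, by Parseval `(lam k - lam l) ⟪x, y⟫ =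
∑_m ((lam k x_m) y_m - x_m (lam l y_m)) = ∑_m ((Bo x)_m y_m - x_m (Bo y)_m) = ⟪Bo x, y⟫ - ⟪x, Bo y⟫ = 0`
(the terms `(m+1)² x_m y_m` cancel), and `|lam k - lam l| ≥ 3 - 4ε > 0`.  Completeness
(`HilbertBasis.mkOfOrthogonalEqBot`): if `f ⟂ e k` for all `k`, `‖f‖² = ∑ ⟪f, s k⟫² = ∑ ⟪f, s k - e k⟫² ≤
‖f‖² ∑ (2 ‖h_k‖)² ≤ ‖f‖² 16 ε² ∑ 1/(k+1)² < ‖f‖²`.  Last claim: `|1/‖s k + h_k‖ - 1| ≤ 2ε² ≤ ε`, PTA. -/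
def PtbStmt : Prop := ∀ (H : Type) [NormedAddCommGroup H] [InnerProductSpace ℝ H]
  [CompleteSpace H] (s : HilbertBasis ℕ ℝ H) (Bo : H →L[ℝ] H) (c0 ε : ℝ), 0 ≤ ε → ε ≤ 1 / 8 →
  (∀ x y, ⟪Bo x, y⟫_ℝ = ⟪x, Bo y⟫_ℝ) → (∀ x, ‖Bo x - c0 • x‖ ≤ ε * ‖x‖) →
  ∃ (e : HilbertBasis ℕ ℝ H) (lam : ℕ → ℝ), (∀ k : ℕ, |lam k - (((k : ℝ) + 1) ^ 2 + c0)| ≤ 2 * ε) ∧
    (∀ k, Egn (fun m => s m) Bo (lam k) (e k)) ∧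
    ∀ k n : ℕ, ∑ m ∈ Finset.range n, |⟪s m, e k⟫_ℝ - if m = k then 1 else 0| ≤ 5 * ε

/-- REP: bounded representatives (uses NUF).  `|sg d β m r| ≤ (2/π)^(1/2) ≤ 1` on `I = (β, β + π)`
(`r/β ≥ 1`, exponent `≤ 0`).  `c_m = ⟪s m, e k⟫`, `∑ |c_m - δ_mk| ≤ ε`; `bb k r = 1_I(r) ∑_m c_m sg_m(r)`
(absolutely convergent), `|bb k - sg_k| ≤ ε` on `I`, `|bb k| ≤ 1 + ε ≤ 2`.  The partial sums of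
`∑ c_m s m` converge to `e k` in `L²(nu)` and uniformly on `I` to `bb k`, so `e k = bb k` a.e. -/
def RepStmt : Prop := ∀ (d : ℕ) (β ε : ℝ) (s e : HilbertBasis ℕ ℝ (Lp ℝ 2 (nu d β))), 2 ≤ d →
  0 < β → 0 ≤ ε → ε ≤ 1 → (∀ k, s k =ᵐ[nu d β] sg d β k) →
  (∀ k n : ℕ, ∑ m ∈ Finset.range n, |⟪s m, e k⟫_ℝ - if m = k then 1 else 0| ≤ ε) →
  ∃ bb : ℕ → ℝ → ℝ, (∀ k, Measurable (bb k)) ∧ (∀ k, e k =ᵐ[nu d β] bb k) ∧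
    (∀ k, ∀ r ∈ Ioo β (β + Real.pi), |bb k r - sg d β k r| ≤ ε) ∧ ∀ k r, |bb k r| ≤ 2

/-- NRB: no resonances (no hypotheses; arithmetic).  `n = k + 1`, `lam = n² + c0 + θ`, `|θ| ≤ κ |c0|`,
`om = n (1 + (c0 + θ)/n²)^(1/2) = n + c0/(2n) + ρ_k`, `|ρ_k| ≤ 3 κ |c0|/n`
(`|√(1+u) - 1 - u/2| ≤ u²/2` for `|u| ≤ 1/2`; `|u| ≤ 2|c0|/n²`, `|c0| ≤ κ`).  n1: `n - j ≠ 0`:
`|om_k - j om_0| ≥ 1 - (|c0|/2)(1 + J) - 3κ|c0|(1+J) ≥ 1/2`; `n = j ≥ 2`: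
`≥ (|c0|/2)(n - 1/n) - 3κ|c0|(1+J) ≥ |c0|/4`.  n2 (`n = k+1`, `m = l+1`,
`i = k - l - j`): `i ≠ 0`: `≥ |i| - |c0|(J+2) ≥ |i|/2 ≥ (1 + |i|)/4`; `i = 0`, so `j = n - m ≠ 0`:
`|(c0/2)(1/n - 1/m - j)| = (|c0|/2) |j| (1 + 1/(nm)) ≥ |c0|/2`, minus `3κ|c0|(2+J)`: `≥ |c0|/4`.  n3
(`i = n + m - j`): `i ≠ 0` as before; `i = 0`: `j = n + m ≥ 4`, `(|c0|/2)(n + m - 1/n - 1/m) ≥ |c0|`.
`δ = min (1/4, |c0|/4)`, `κ = 1/(32 (J + 3))` (all the subtracted terms are then small enough).  Frq: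
`om_k ≥ n - 1/2 ≥ n/2`, `om_0 ≤ 2`. -/
def NrbStmt : Prop := ∀ J : ℕ, ∃ κ : ℝ, 0 < κ ∧ κ ≤ 1 / 8 ∧ ∀ (c0 : ℝ) (lam : ℕ → ℝ), c0 ≠ 0 →
  |c0| ≤ κ → (∀ k : ℕ, |lam k - (((k : ℝ) + 1) ^ 2 + c0)| ≤ κ * |c0|) →
  Frq (fun k => Real.sqrt (lam k)) ∧ ∃ δ : ℝ, Nrs (fun k => Real.sqrt (lam k)) J δ

/-- SIN: the stability of the first mode (no hypotheses).  `K_n = ∫_0^π (sin x)^al cos(2nx) dx`.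
Integrating the derivative of `(sin x)^(al+1) cos((2n+1)x)`:
`(al+1)(K_n + K_(n+1)) = (2n+1)(K_n - K_(n+1))`, i.e. `K_(n+1) (2n+2+al) = K_n (2n - al)`.  So
`K_1 = - al/(al+2) K_0`, `K_2 = al(al-2)/((al+2)(al+4)) K_0`, `|K_(n+1)| ≤ |K_n|` for `n ≥ 1`, and for
`al ≤ 2` all `K_n ≤ 0`, `n ≥ 1`; so `K_n/K_0 ≤ q = max (0, al(al-2)/((al+2)(al+4)))` for `n ≥ 2`,
`q < al²/(al+2)²`.  `∫ (sin)^(al+2) = (K_0 - K_1)/2 = (al+1)/(al+2) K_0`,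
`∫ (sin)^al sin²(nx) = (K_0 - K_n)/2 ≥ (1 - q) K_0/2`, and
`(1 - q)/2 > (1 - al²/(al+2)²)/2 = (2/(al+2)) (al+1)/(al+2)`. -/
def SinStmt : Prop := ∀ al : ℝ, 0 < al → ∃ g : ℝ, 0 < g ∧ ∀ k : ℕ, 1 ≤ k →
  (1 + g) * (2 / (al + 2) * ∫ x in (0 : ℝ)..Real.pi, |Real.sin x| ^ (al + 2)) ≤
    ∫ x in (0 : ℝ)..Real.pi, |Real.sin x| ^ al * Real.sin (((k : ℝ) + 1) * x) ^ 2

/-- PKG: the gap condition, uniformly for thin shells (uses SIN, MCR, NUF).  `s_k(x) =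
(2/π)^(1/2) sin((k+1)x)`, `I0 = ∫_0^π |s_0|^(al+2)`, `P_k = ∫_0^π |s_0|^al s_k²`; SIN times `(2/π)^(al/2+1)`:
`P_k ≥ (1+g) (2/(al+2)) I0` for `k ≥ 1`.  `γ0 = mc(al) (1+g) I0/(al+2)`: `2 γ0 ≤ mc(al) P_k`, and
`(al+1) γ0 = (1+g) mc(al+2) I0` (MCR).  With `x = r - β`, `ρ = r/β ∈ [1, 1 + π/β]`:
`|bb_k - s_k| ≤ ε1 + |ρ^(-(d-1)/2) - 1| ≤ ε1 + C/β`, weight `ρ^(d-1) ∈ [1, 1 + C/β]`, all functions bounded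
by `2`: for `ε1 + 1/β` small the integrals `∫ |bb_0|^(al+2)`, `∫ |bb_0|^al bb_k²` (`k ≥ 1`) differ from `I0`,
`P_k` by at most `θ`, uniformly in `k` (`| |x|^al - |y|^al | ≤ C |x-y|^(min al 1)` for `|x|, |y| ≤ 2`).
Take `γ = γ0 - mc(al) θ/2` and `θ`, `g0` small. -/
def PkgStmt : Prop := ∀ (d : ℕ) (al : ℝ), 2 ≤ d → 0 < al → ∃ g0 γ ε1 β1 : ℝ, 0 < g0 ∧ 0 < ε1 ∧
  ε1 ≤ 1 ∧ 1 ≤ β1 ∧ ∀ (β : ℝ) (bb : ℕ → ℝ → ℝ), β1 ≤ β → (∀ k, Measurable (bb k)) →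
  (∀ k, ∀ r ∈ Ioo β (β + Real.pi), |bb k r - sg d β k r| ≤ ε1) →
  g0 ≤ (∫ r, |bb 0 r| ^ (al + 2) ∂(nu d β)) * mc (al + 2) ∧
  (∫ r, |bb 0 r| ^ (al + 2) ∂(nu d β)) * mc (al + 2) + g0 ≤ (al + 1) * γ ∧
  ∀ k, 1 ≤ k → 2 * γ ≤ mc al * ∫ r, |bb 0 r| ^ al * bb k r ^ 2 ∂(nu d β)

/-- DAT: the data (uses SBS, OPB, PTB, REP, NRB).  `κ` from NRB; `c0 = cd d/β² ≠ 0` (`d ≠ 1, 3`),
`ε = 8 |cd d|/β³`; for large `β`: `ε ≤ 1/8`, `5 ε ≤ min ε1 1`, `|c0| ≤ κ`, `2 ε = (16/β) |c0| ≤ κ |c0|`. -/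
def DatStmt : Prop := ∀ (d : ℕ) (ε1 : ℝ) (J : ℕ), 2 ≤ d → d ≠ 3 → 0 < ε1 → ∃ β2 : ℝ, 1 ≤ β2 ∧
  ∀ β : ℝ, β2 ≤ β → ∃ (δ : ℝ) (s e : HilbertBasis ℕ ℝ (Lp ℝ 2 (nu d β)))
    (Bo : Lp ℝ 2 (nu d β) →L[ℝ] Lp ℝ 2 (nu d β)) (lam : ℕ → ℝ) (bb : ℕ → ℝ → ℝ),
    Dat d β ε1 J δ s e Bo lam bb

end

end Pool.Agent.BEW
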